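import Pool.Agent.Lib.TG1_h47.Tr

/-!
# Denominators which are forms with centre `c`, for generic `c`

If `e` is integral over `k((T_j - c_j) / (T_0 - c_0))[T_0 - c_0]` for generic `c`, then `e` is
integral over `k[T]`.
-/

set_option autoImplicit false

namespace Pool.Agent.TG1h7

open MvPolynomial
open Pool.Agent.TG1h47 (tr sh aeval_sh eval_tr tr_ne_zero)
open Pool.Agent.TG1h5 (ord0)

variable {k K : Type*} [Field k] [Field K] [Algebra k K] {m : ℕ}

/-- Quotients of forms of the same degree. -/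
theorem exists_forms {y : Fin (m + 1) → K} (hy : AlgebraicIndependent k y) {q : K}
    (hq : q ∈ IntermediateField.adjoin k (Set.range fun j => y j / y 0)) :
    ∃ (d : ℕ) (G H : MvPolynomial (Fin (m + 1)) k), G.IsHomogeneous d ∧ H.IsHomogeneous d ∧
      H ≠ 0 ∧ q * aeval y H = aeval y G := by
  have hne : ∀ {H : MvPolynomial (Fin (m + 1)) k}, H ≠ 0 → aeval y H ≠ 0 := fun {H} hH h =>
    hH (hy (by rw [h, map_zero]))
  have hy0 : ∀ j, y j ≠ 0 := hy.ne_zero
  induction hq using IntermediateField.adjoin_induction with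
  | mem x hx =>
    obtain ⟨j, rfl⟩ := hx
    refine ⟨1, X j, X 0, isHomogeneous_X _ _, isHomogeneous_X _ _, X_ne_zero 0, ?_⟩
    rw [aeval_X, aeval_X]
    exact div_mul_cancel₀ _ (hy0 0)
  | algebraMap c =>
    refine ⟨0, C c, 1, isHomogeneous_C _ _, isHomogeneous_one _ _, one_ne_zero, ?_⟩
    rw [map_one, mul_one, algHom_C]
  | add x x' _ _ hx hx' =>
    obtain ⟨d, G, H, hG, hH, hH0, h⟩ := hx
    obtain ⟨d', G', H', hG', hH', hH0', h'⟩ := hx'
    refine ⟨d + d', G * H' + H * G', H * H', (hG.mul hH').add (hH.mul hG'), hH.mul hH',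
      mul_ne_zero hH0 hH0', ?_⟩
    rw [map_mul, map_add, map_mul, map_mul, ← h, ← h']
    ring
  | inv x _ hx =>
    obtain ⟨d, G, H, hG, hH, hH0, h⟩ := hx
    by_cases hx0 : x = 0
    · refine ⟨0, 0, 1, isHomogeneous_zero _ _ _, isHomogeneous_one _ _, one_ne_zero, ?_⟩
      rw [hx0, inv_zero, zero_mul, map_zero]
    · refine ⟨d, H, G, hH, hG, ?_, ?_⟩
      · rintro rfl
        rw [map_zero] at h
        exact mul_ne_zero hx0 (hne hH0) h
      · rw [← h, inv_mul_cancel_left₀ hx0]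
  | mul x x' _ _ hx hx' =>
    obtain ⟨d, G, H, hG, hH, hH0, h⟩ := hx
    obtain ⟨d', G', H', hG', hH', hH0', h'⟩ := hx'
    refine ⟨d + d', G * G', H * H', hG.mul hG', hH.mul hH', mul_ne_zero hH0 hH0', ?_⟩
    rw [map_mul, map_mul, ← h, ← h']
    ring

/-- Elements of `k(y_j / y_0)[y_0]` have forms as denominators. -/
theorem exists_form_denom {y : Fin (m + 1) → K} (hy : AlgebraicIndependent k y) {q : K}
    (hq : q ∈ Algebra.adjoin (IntermediateField.adjoin k (Set.range fun j => y j / y 0))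
      {y 0}) :
    ∃ (d : ℕ) (G H : MvPolynomial (Fin (m + 1)) k), H.IsHomogeneous d ∧
      H ≠ 0 ∧ q * aeval y H = aeval y G := by
  induction hq using Algebra.adjoin_induction with
  | mem x hx =>
    rw [Set.mem_singleton_iff] at hx
    rw [hx]
    refine ⟨0, X 0, 1, isHomogeneous_one _ _, one_ne_zero, ?_⟩
    rw [map_one, mul_one, aeval_X]
  | algebraMap c =>
    obtain ⟨d, G, H, -, hH, hH0, h⟩ := exists_forms hy c.2
    exact ⟨d, G, H, hH, hH0, h⟩
  | add x x' _ _ hx hx' =>
    obtain ⟨d, G, H, hH, hH0, h⟩ := hx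
    obtain ⟨d', G', H', hH', hH0', h'⟩ := hx'
    refine ⟨d + d', G * H' + H * G', H * H', hH.mul hH', mul_ne_zero hH0 hH0', ?_⟩
    rw [map_mul, map_add, map_mul, map_mul, ← h, ← h']
    ring
  | mul x x' _ _ hx hx' =>
    obtain ⟨d, G, H, hH, hH0, h⟩ := hx
    obtain ⟨d', G', H', hH', hH0', h'⟩ := hx'
    refine ⟨d + d', G * G', H * H', hH.mul hH', mul_ne_zero hH0 hH0', ?_⟩
    rw [map_mul, map_mul, ← h, ← h']
    ring

/-- The order of a form. -/
theorem ordAt_zero_of_homogeneous {H : MvPolynomial (Fin (m + 1)) k} {d : ℕ}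
    (hH : H.IsHomogeneous d) (h0 : H ≠ 0) :
    TG1h47.ordAt 0 H = H.totalDegree := by
  rw [TG1h47.ordAt, TG1h47.tr_zero, hH.totalDegree h0]
  obtain ⟨e, he, he'⟩ := TAO.exists_wo (fun _ => 1) h0
  rw [ord0, ← he']
  exact hH (mem_support_iff.mp he)

/-- Forms are prime to polynomials with a non-zero constant term. -/
theorem isRelPrime_form {H G : MvPolynomial (Fin (m + 1)) k} {d : ℕ} (hH : H.IsHomogeneous d)
    (h0 : H ≠ 0) (hG : eval 0 G ≠ 0) : IsRelPrime G H := by
  intro e heG heH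
  have h1 : eval 0 e ≠ 0 := by
    obtain ⟨r, rfl⟩ := heG
    rw [map_mul] at hG
    exact left_ne_zero_of_mul hG
  have h2 := TG1h47.totalDegree_eq_zero_of_dvd h0 heH (ordAt_zero_of_homogeneous hH h0) h1
  rw [totalDegree_eq_zero_iff_eq_C] at h2
  rw [h2]
  have h3 : coeff 0 e ≠ 0 := by
    intro h4
    rw [h4, C_0] at h2
    rw [h2, map_zero] at h1
    exact h1 rfl
  exact (isUnit_iff_ne_zero.mpr h3).map C

/-- An element of `k(T)` regular at `c` and with a form with centre `c` as denominator is a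
polynomial. -/
theorem mem_adjoin_of_form {T : Fin (m + 1) → K} (hT : AlgebraicIndependent k T)
    (c : Fin (m + 1) → k) {q : K} {G H : MvPolynomial (Fin (m + 1)) k} (hH : eval c H ≠ 0)
    (hq : q * aeval T H = aeval T G)
    (hq' : q ∈ Algebra.adjoin (IntermediateField.adjoin k
      (Set.range fun j => sh T c j / sh T c 0)) {sh T c 0}) :
    q ∈ Algebra.adjoin k (Set.range T) := by
  have hy : AlgebraicIndependent k (sh T c) := by
    have h1 : ∀ g : MvPolynomial (Fin (m + 1)) k, aeval (sh T c) g = (0 : K) → g = 0 := by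
      intro g hg
      rw [← TG1h47.tr_tr_neg c g, aeval_sh] at hg
      by_contra h2
      exact tr_ne_zero (-c) h2 (hT (by rw [hg, map_zero]))
    exact (injective_iff_map_eq_zero _).mpr h1
  obtain ⟨d, G', H', hH', hH0', h'⟩ := exists_form_denom hy hq'
  have h1 : q * aeval (sh T c) (tr c H) = aeval (sh T c) (tr c G) := by
    rw [aeval_sh, aeval_sh, hq]
  have h2 : eval 0 (tr c H) ≠ 0 := by
    rw [eval_tr, zero_add]
    exact hH
  have h3 : tr c G * H' = tr c H * G' := by
    apply hy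
    rw [map_mul, map_mul, ← h1, ← h']
    ring
  have h4 : tr c H ∣ tr c G * H' := ⟨_, h3⟩
  obtain ⟨R, hR⟩ := (isRelPrime_form hH' hH0' h2).dvd_of_dvd_mul_right h4
  have h5 : aeval (sh T c) (tr c H) ≠ 0 := by
    intro h6
    have h7 : tr c H = 0 := hy (by rw [h6, map_zero])
    rw [h7, map_zero] at h2
    exact h2 rfl
  have h6 : q = aeval (sh T c) R := by
    rw [hR, map_mul, mul_comm] at h1
    exact mul_left_cancel₀ h5 h1
  rw [h6, ← TG1h47.tr_tr_neg c R, aeval_sh]
  exact Algebra.adjoin_range_eq_range_aeval k T ▸ AlgHom.mem_range_self _ _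

end Pool.Agent.TG1h7
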